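import Pool.Agent.W990.EB.Stm

/-!
# EB-JD: difference version of `J`, odd form
-/

set_option autoImplicit false
open Finset

namespace Pool.Agent.W103.EB

open Pool.Agent.W990.EB

theorem jd : S_JD := by
  intro K S t q
  unfold J W
  rw [Finset.sum_product]
  refine Finset.sum_congr rfl fun a _ => Finset.sum_congr rfl fun b _ => ?_
  rw [Finset.sum_product]
  refine Finset.sum_congr rfl fun c _ => Finset.sum_congr rfl fun d _ => ?_
  have e1 : ((a : ℤ) + d - b - c) = ((a : ℤ) - b) - ((c : ℤ) - d) := by ring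
  have e2 : Real.exp (-(t * ((a : ℝ) + b + c + d))) =
      Real.exp (-(t * ((a : ℝ) + b))) * Real.exp (-(t * ((c : ℝ) + d))) := by
    rw [← Real.exp_add]
    congr 1
    ring
  rw [e1, e2]
  ring

theorem odd (h1 : S_V1) : S_ODD := by
  intro K S t hK
  have e : J K S po t = J K S (fun a b c d => qo (a - b) (a + b) * qo (c - d) (c + d)) t := rfl
  rw [e, jd K S t qo]
  exact h1 _ K _ _ _ hK

end Pool.Agent.W103.EB
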